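import Pool.Agent.helper54.UG.Spec

/-!
# Project ug (MP_a2a22c_al), row H1
-/

set_option autoImplicit false

namespace Pool.Agent.UG

open Matrix Pool.Agent.H48SL

/-- the row `a(h)` -/
def H1_a {n : ℕ} (h : SLZ (n + 1)) (j : Fin n) : ℚ := qg h 0 j.succ

/-- the elementary matrix -/
def H1_E {n : ℕ} (i j : Fin n) : MQ n := Matrix.single i j 1

theorem H1_xe {n : ℕ} {i j : Fin n} (hij : i ≠ j) (k : ℕ) :
    qg (xe i j (k : ℤ)) = 1 + (k : ℚ) • H1_E i j := by
  unfold xe
  rw [qg_tv (single_dot hij _)]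
  congr 1
  ext p q
  rw [vecMulVec_apply, Matrix.smul_apply, smul_eq_mul]
  unfold H1_E castV
  rw [Matrix.single_apply]
  by_cases hp : p = i
  · by_cases hq : q = j
    · subst hp; subst hq; simp
    · rw [if_neg (by rintro ⟨-, h⟩; exact hq h.symm)]
      simp [hq]
  · rw [if_neg (by rintro ⟨h, -⟩; exact hp h.symm)]
    simp [hp]

theorem H1_same {n : ℕ} (i j l : Fin n) : H1_E i j * H1_E j l = H1_E i l := by
  unfold H1_E
  rw [Matrix.single_mul_single_same, one_mul]

theorem H1_ne {n : ℕ} {i j p l : Fin n} (h : j ≠ p) : H1_E i j * H1_E p l = 0 := by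
  unfold H1_E
  rw [Matrix.single_mul_single_of_ne _ _ _ _ h]

theorem H1_mul {n : ℕ} {g h : SLZ (n + 1)} (hg : fx g) (j : Fin n) :
    H1_a (g * h) j = H1_a h j + ∑ l, H1_a g l * dn (qg h) l j := by
  unfold H1_a
  rw [qg_mul, Matrix.mul_apply, Fin.sum_univ_succ, fx_zero hg, one_mul]
  rfl

theorem H1_mulE {n : ℕ} {g h : SLZ (n + 1)} (hg : fx g) {p q : Fin n} (k : ℕ)
    (hh : dn (qg h) = 1 + (k : ℚ) • H1_E p q) (j : Fin n) :
    H1_a (g * h) j = H1_a h j + H1_a g j + if j = q then (k : ℚ) * H1_a g p else 0 := by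
  rw [H1_mul hg, hh, add_assoc]
  congr 1
  have h1 : ∀ l : Fin n, H1_a g l * (1 + (k : ℚ) • H1_E p q : MQ n) l j =
      (if l = j then H1_a g l else 0) + (if l = p then (if j = q then (k : ℚ) * H1_a g l else 0)
        else 0) := by
    intro l
    rw [Matrix.add_apply, Matrix.smul_apply, smul_eq_mul, mul_add, Matrix.one_apply]
    unfold H1_E
    rw [Matrix.single_apply]
    congr 1
    · split_ifs <;> simp
    · by_cases hl : l = p
      · subst hl
        by_cases hj : j = q
        · subst hj; simp; ring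
        · rw [if_neg (by rintro ⟨-, h⟩; exact hj h.symm), if_pos rfl, if_neg hj]; simp
      · rw [if_neg (by rintro ⟨h, -⟩; exact hl h.symm), if_neg hl]; simp
  rw [Finset.sum_congr rfl fun l _ => h1 l, Finset.sum_add_distrib, Finset.sum_ite_eq',
    Finset.sum_ite_eq']
  simp

theorem H1_dnmul {n : ℕ} {g h : SLZ (n + 1)} (hg : fx g) :
    dn (qg (g * h)) = dn (qg g) * dn (qg h) := by
  rw [qg_mul, dn_mul _ _ (fx_succ hg)]

theorem H1_inj {n : ℕ} {G : Subgroup (SLZ (n + 1))} (hfx : ∀ g ∈ G, fx g)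
    (hinj : ∀ g ∈ G, dn (qg g) = 1 → g = 1) {g h : SLZ (n + 1)} (hg : g ∈ G) (hh : h ∈ G)
    (he : dn (qg g) = dn (qg h)) : g = h := by
  have h1 : g * h⁻¹ = 1 := by
    apply hinj _ (G.mul_mem hg (G.inv_mem hh))
    rw [H1_dnmul (hfx g hg), he, ← H1_dnmul (hfx h hh), mul_inv_cancel, qg_one, dn_one]
  exact mul_inv_eq_one.1 h1

theorem H1 : H1_stmt := by
  intro n hn G hfx hinj k hk g hg
  have hk0 : (k : ℚ) ≠ 0 := by
    have : k ≠ 0 := by omega
    exact_mod_cast this
  obtain ⟨A, hA⟩ : ∃ A : Fin n → Fin n → Fin n → ℚ, A = fun i j p => H1_a (g i j) p := ⟨_, rfl⟩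
  have hAe : ∀ i j p, H1_a (g i j) p = A i j p := fun i j p => by rw [hA]
  have hblk : ∀ i j, i ≠ j → dn (qg (g i j)) = 1 + (k : ℚ) • H1_E i j := by
    intro i j hij
    rw [(hg i j hij).2, H1_xe hij]
  have hfg : ∀ i j, i ≠ j → fx (g i j) := fun i j hij => hfx _ (hg i j hij).1
  have hGg : ∀ i j, i ≠ j → g i j ∈ G := fun i j hij => (hg i j hij).1
  -- commuting elements
  have hcom : ∀ i j p q, i ≠ j → p ≠ q → j ≠ p → q ≠ i → ∀ r,
      (if r = q then (k : ℚ) * A i j p else 0) = if r = j then (k : ℚ) * A p q i else 0 := by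
    intro i j p q hij hpq hjp hqi r
    have h1 : g i j * g p q = g p q * g i j := by
      apply H1_inj hfx hinj (G.mul_mem (hGg i j hij) (hGg p q hpq))
        (G.mul_mem (hGg p q hpq) (hGg i j hij))
      rw [H1_dnmul (hfg i j hij), H1_dnmul (hfg p q hpq), hblk i j hij, hblk p q hpq]
      simp only [mul_add, add_mul, one_mul, mul_one, smul_mul_assoc, mul_smul_comm, H1_ne hjp,
        H1_ne hqi, smul_zero, add_zero]
      abel
    have h2 := H1_mulE (hfg i j hij) k (hblk p q hpq) r
    have h3 := H1_mulE (hfg p q hpq) k (hblk i j hij) r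
    rw [h1, h3] at h2
    simp only [hAe] at h2
    linarith
  have hth : ∀ i j : Fin n, ∃ q : Fin n, q ≠ i ∧ q ≠ j := by
    intro i j
    by_contra hcon
    push Not at hcon
    have h1 : (Finset.univ : Finset (Fin n)) ⊆ {i, j} := by
      intro q _
      rw [Finset.mem_insert, Finset.mem_singleton]
      by_cases h : q = i
      · exact Or.inl h
      · exact Or.inr (hcon q h)
    have h2 := Finset.card_le_card h1
    have h3 : ({i, j} : Finset (Fin n)).card ≤ 2 := Finset.card_le_two
    rw [Finset.card_univ, Fintype.card_fin] at h2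
    omega
  -- (A)
  have fA : ∀ i j, i ≠ j → A i j i = 0 := by
    intro i j hij
    obtain ⟨q, hqi, hqj⟩ := hth i j
    have h1 := hcom i j i q hij hqi.symm hij.symm hqi q
    rw [if_pos rfl, if_neg hqj] at h1
    exact (mul_eq_zero.1 h1).resolve_left hk0
  -- (B)
  have fB : ∀ i j p, i ≠ j → p ≠ j → A i j p = A p j i := by
    intro i j p hij hpj
    have h1 := hcom i j p j hij hpj hpj.symm hij.symm j
    rw [if_pos rfl, if_pos rfl] at h1
    exact mul_left_cancel₀ hk0 h1
  -- powers
  have hpow : ∀ i l, i ≠ l → ∀ m : ℕ, (g i l) ^ m ∈ G ∧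
      dn (qg ((g i l) ^ m)) = 1 + ((m : ℚ) * k) • H1_E i l ∧
      ∀ r, H1_a ((g i l) ^ m) r = m * A i l r := by
    intro i l hil m
    induction m with
    | zero =>
      refine ⟨by rw [pow_zero]; exact G.one_mem, ?_, fun r => ?_⟩
      · rw [pow_zero, qg_one, dn_one]; simp
      · rw [pow_zero]
        unfold H1_a
        rw [qg_one, Matrix.one_apply, if_neg (Fin.succ_ne_zero r).symm]
        simp
    | succ m ih =>
      obtain ⟨i1, i2, i3⟩ := ih
      refine ⟨G.pow_mem (hGg i l hil) _, ?_, fun r => ?_⟩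
      · rw [pow_succ, H1_dnmul (hfx _ i1), i2, hblk i l hil]
        simp only [mul_add, add_mul, one_mul, mul_one, smul_mul_assoc, mul_smul_comm,
          H1_ne hil.symm, smul_zero, add_zero]
        push_cast
        rw [add_mul, one_mul, add_smul]
        abel
      · rw [pow_succ, H1_mulE (hfx _ i1) k (hblk i l hil) r, i3, i3, fA i l hil, hAe]
        push_cast
        simp
        ring
  -- (C)
  have fC : ∀ i j l, i ≠ j → j ≠ l → i ≠ l → ∀ r, (if r = l then A i j j else 0) =
      A i l r + (if r = l then (k : ℚ) * A i l j else 0) + if r = j then A j l i else 0 := by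
    intro i j l hij hjl hil r
    obtain ⟨p1, p2, p3⟩ := hpow i l hil k
    have hm1 : g i l ^ k * g j l ∈ G := G.mul_mem p1 (hGg j l hjl)
    have h1 : g i j * g j l = g i l ^ k * g j l * g i j := by
      apply H1_inj hfx hinj (G.mul_mem (hGg i j hij) (hGg j l hjl))
        (G.mul_mem hm1 (hGg i j hij))
      rw [H1_dnmul (hfg i j hij), H1_dnmul (hfx _ hm1), H1_dnmul (hfx _ p1), p2, hblk i j hij,
        hblk j l hjl]
      have e1 : (1 + (k : ℚ) • H1_E i j) * (1 + (k : ℚ) • H1_E j l) =
          1 + (k : ℚ) • H1_E i j + (k : ℚ) • H1_E j l + ((k : ℚ) * k) • H1_E i l := by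
        rw [mul_add, mul_one, add_mul, one_mul, smul_mul_smul_comm, H1_same]
        abel
      have e2 : (1 + ((k : ℚ) * k) • H1_E i l) * (1 + (k : ℚ) • H1_E j l) =
          1 + ((k : ℚ) * k) • H1_E i l + (k : ℚ) • H1_E j l := by
        rw [mul_add, mul_one, add_mul, one_mul, smul_mul_smul_comm, H1_ne hjl.symm, smul_zero,
          add_zero]
      have e3 : (1 + ((k : ℚ) * k) • H1_E i l + (k : ℚ) • H1_E j l) * (1 + (k : ℚ) • H1_E i j) =
          1 + ((k : ℚ) * k) • H1_E i l + (k : ℚ) • H1_E j l + (k : ℚ) • H1_E i j := by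
        rw [mul_add, mul_one, add_mul, add_mul, one_mul, smul_mul_smul_comm, smul_mul_smul_comm,
          H1_ne hil.symm, H1_ne hil.symm, smul_zero, smul_zero, add_zero, add_zero]
      rw [e1, e2, e3]
      abel
    have h2 := H1_mulE (hfg i j hij) k (hblk j l hjl) r
    have h3 := H1_mulE (hfx _ hm1) k (hblk i j hij) r
    have h4 := H1_mulE (hfx _ p1) k (hblk j l hjl)
    rw [h1, h3, h4 r, h4 i, p3, p3, p3, fA i l hil, if_neg hil] at h2
    simp only [hAe] at h2
    have h5 : (k : ℚ) * (if r = l then A i j j else 0) = k * (A i l r +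
        (if r = l then (k : ℚ) * A i l j else 0) + if r = j then A j l i else 0) := by
      split_ifs at h2 ⊢ <;> linarith
    exact mul_left_cancel₀ hk0 h5
  have f0 : ∀ i j l, i ≠ j → j ≠ l → i ≠ l → A i l j = 0 := by
    intro i j l hij hjl hil
    have h1 := fC i j l hij hjl hil j
    rw [if_neg hjl, if_neg hjl, if_pos rfl] at h1
    have h2 := fB i l j hil hjl
    linarith
  have f1 : ∀ i j l, i ≠ j → j ≠ l → i ≠ l → A i j j = A i l l := by
    intro i j l hij hjl hil
    have h1 := fC i j l hij hjl hil l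
    rw [if_pos rfl, if_pos rfl, if_neg hjl.symm, f0 i j l hij hjl hil] at h1
    linarith
  have hj0 : ∀ i : Fin n, ∃ q : Fin n, q ≠ i := fun i => (hth i i).imp fun _ h => h.1
  choose j0 hj0 using hj0
  have f2 : ∀ i j p, i ≠ j → A i j p = if p = j then A i (j0 i) (j0 i) else 0 := by
    intro i j p hij
    by_cases hp : p = j
    · subst hp
      rw [if_pos rfl]
      by_cases h : p = j0 i
      · rw [← h]
      · exact f1 i p (j0 i) hij h (hj0 i).symm
    · rw [if_neg hp]
      by_cases hpi : p = i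
      · subst hpi; exact fA p j hij
      · exact f0 i p j (fun h => hpi h.symm) hp hij
  refine ⟨Fin.cons 1 (fun i => -(A i (j0 i) (j0 i)) / k), Fin.cons_zero _ _, ?_⟩
  intro i j hij
  ext q
  refine Fin.cases ?_ (fun p => ?_) q
  · show (∑ l, (Fin.cons 1 (fun i => -(A i (j0 i) (j0 i)) / k) : Fin (n + 1) → ℚ) l *
      qg (g i j) l 0) = _
    rw [Fin.sum_univ_succ, Fin.cons_zero, fx_zero (hfg i j hij), one_mul]
    rw [Finset.sum_eq_zero, add_zero]
    intro l _
    rw [fx_succ (hfg i j hij), mul_zero]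
  · show (∑ l, (Fin.cons 1 (fun i => -(A i (j0 i) (j0 i)) / k) : Fin (n + 1) → ℚ) l *
      qg (g i j) l p.succ) = _
    rw [Fin.sum_univ_succ, Fin.cons_zero, one_mul, Fin.cons_succ]
    have h1 : ∀ l : Fin n, (Fin.cons 1 (fun i => -(A i (j0 i) (j0 i)) / k) : Fin (n + 1) → ℚ) l.succ *
        qg (g i j) l.succ p.succ = (if l = p then -(A l (j0 l) (j0 l)) / k else 0) +
        (if l = i then (if p = j then -(A l (j0 l) (j0 l)) else 0) else 0) := by
      intro l
      have h0 : qg (g i j) l.succ p.succ = (1 + (k : ℚ) • H1_E i j : MQ n) l p := by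
        rw [← hblk i j hij]
        rfl
      rw [Fin.cons_succ, h0, Matrix.add_apply, Matrix.smul_apply, smul_eq_mul, mul_add,
        Matrix.one_apply]
      unfold H1_E
      rw [Matrix.single_apply]
      congr 1
      · split_ifs <;> simp
      · by_cases hl : l = i
        · subst hl
          by_cases hj : p = j
          · subst hj; simp; field_simp
          · rw [if_neg (by rintro ⟨-, h⟩; exact hj h.symm), if_pos rfl, if_neg hj]; simp
        · rw [if_neg (by rintro ⟨h, -⟩; exact hl h.symm), if_neg hl]; simp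
    rw [Finset.sum_congr rfl fun l _ => h1 l, Finset.sum_add_distrib, Finset.sum_ite_eq',
      Finset.sum_ite_eq']
    have h2 : qg (g i j) 0 p.succ = A i j p := hAe i j p
    rw [h2, f2 i j p hij]
    simp only [Finset.mem_univ, if_true]
    split_ifs <;> ring

end Pool.Agent.UG
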